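import Mathlib
import Pool.Agent.R440.E815A2
import Pool.Agent.R440.E815B2

/-!
# Integrality of the normalised partial sums of two Ramanujan-type series

The proofs use WZ transformations of the two sums (`E815A.wz`, `E815B.wz1`, `E815B.wz2`)
and Legendre-type counts of the valuations of the transformed terms.
-/

set_option autoImplicit false

namespace Pool.Agent.Results.MP_e1e815_nt.Integrality

open Finset Nat

/-- the numbers `a_n` (normalised `(6j+1)` sums) -/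
noncomputable def a (n : ℕ) : ℚ :=
  (∑ j ∈ range n, 216 ^ (n - 1 - j) * (6 * (j : ℚ) + 1) * ((2 * j).choose j : ℚ) ^ 2 *
    ((3 * j).choose j : ℚ)) / (n * (2 * n + 1) * ((2 * n).choose n : ℚ))

/-- the numbers `b_n` (normalised `(8j+1)` sums) -/
noncomputable def b (n : ℕ) : ℚ :=
  (∑ j ∈ range n, 2304 ^ (n - 1 - j) * (8 * (j : ℚ) + 1) * (((4 * j)! : ℚ) / (j ! : ℚ) ^ 4)) /
    (2 * n * (2 * n + 1) * ((2 * n).choose n : ℚ))

theorem a_eq (n : ℕ) : a n = R440.E815A.a n := by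
  unfold a R440.E815A.a R440.E815A.M
  congr 1
  refine Finset.sum_congr rfl fun j _ => ?_
  ring

theorem b_eq (n : ℕ) : b n = R440.E815B.b n := by
  unfold b R440.E815B.b R440.E815B.M
  congr 1
  refine Finset.sum_congr rfl fun j _ => ?_
  ring

/-- Q1. For every `n > 1`: if `2n+1` is not a power of `3` then `a_n` and `b_n` are integers;
if `2n+1` is a power of `3` then `3 a_n` and `3 b_n` are integers not divisible by `3`. -/
theorem result (n : ℕ) (hn : 1 < n) :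
    ((¬ ∃ m : ℕ, 2 * n + 1 = 3 ^ m) → (∃ z : ℤ, a n = z) ∧ (∃ z : ℤ, b n = z)) ∧
    ((∃ m : ℕ, 2 * n + 1 = 3 ^ m) → (∃ z : ℤ, 3 * a n = z ∧ ¬ (3 : ℤ) ∣ z) ∧
      (∃ z : ℤ, 3 * b n = z ∧ ¬ (3 : ℤ) ∣ z)) := by
  rw [a_eq, b_eq]
  have h1 := R440.E815A.main n hn
  have h2 := R440.E815B.main n hn
  exact ⟨fun h => ⟨h1.1 h, h2.1 h⟩, fun h => ⟨h1.2 h, h2.2 h⟩⟩

end Pool.Agent.Results.MP_e1e815_nt.Integrality
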